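import Mathlib
import Pool.Agent.Lib.helper17.WO2

set_option autoImplicit false

namespace Pool.Agent.Results.MP_f8e4dc_lc.Q1

open FirstOrder FirstOrder.Language

universe u

section Defs

variable {L : FirstOrder.Language.{0, 0}} {U : Type u} [L.Structure U] {α β : Type}

/-- formulas have variables `α` and parameters from `U`; `Γ` implies `φ` over `U`:
some finite part of `Γ` implies `φ` in `U` -/
def Implies (Γ : Set (L.Formula (α ⊕ U))) (φ : L.Formula (α ⊕ U)) : Prop :=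
  ∃ s ⊆ Γ, s.Finite ∧
    ∀ x : α → U, (∀ ψ ∈ s, ψ.Realize (Sum.elim x id)) → φ.Realize (Sum.elim x id)

/-- complete type over `U` in the variables `α` -/
def IsType (p : Set (L.Formula (α ⊕ U))) : Prop :=
  ¬ Implies p ⊥ ∧ ∀ φ, φ ∈ p ∨ φ.not ∈ p

/-- fixed by every automorphism of `U` (invariant over the empty set) -/
def Invariant (p : Set (L.Formula (α ⊕ U))) : Prop :=
  ∀ (σ : U ≃[L] U) (φ : L.Formula (α ⊕ U)), φ ∈ p ↔ φ.relabel (Sum.map id σ) ∈ p

/-- `p(x) ∪ q(y)` -/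
def join (p : Set (L.Formula (α ⊕ U))) (q : Set (L.Formula (β ⊕ U))) :
    Set (L.Formula ((α ⊕ β) ⊕ U)) :=
  Formula.relabel (Sum.map Sum.inl id) '' p ∪ Formula.relabel (Sum.map Sum.inr id) '' q

/-- weak orthogonality: `p(x) ∪ q(y)` decides every formula in `(x, y)` over `U` -/
def WOrth (p : Set (L.Formula (α ⊕ U))) (q : Set (L.Formula (β ⊕ U))) : Prop :=
  ∀ φ, Implies (join p q) φ ∨ Implies (join p q) φ.not

/-- `b` realizes the restriction of `q` to the parameters `u` -/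
def RealizesOver (q : Set (L.Formula (β ⊕ U))) {n : ℕ} (u : Fin n → U) (b : β → U) : Prop :=
  ∀ ψ : L.Formula (β ⊕ Fin n), ψ.relabel (Sum.map id u) ∈ q → ψ.Realize (Sum.elim b u)

/-- `r(x, y) = p(x) ⊗ q(y)` for `p` invariant over the empty set: `φ(x, y, u) ∈ r` iff
`φ(x, b, u) ∈ p` for any `b` realizing `q` over `u` (and such `b` exist) -/
def IsTensor (p : Set (L.Formula (α ⊕ U))) (q : Set (L.Formula (β ⊕ U)))
    (r : Set (L.Formula ((α ⊕ β) ⊕ U))) : Prop :=
  ∀ (n : ℕ) (u : Fin n → U), (∃ b, RealizesOver q u b) ∧ ∀ b, RealizesOver q u b →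
    ∀ φ : L.Formula ((α ⊕ β) ⊕ Fin n),
      (φ.relabel (Sum.map id u) ∈ r ↔ φ.relabel (Sum.elim (Sum.map id b) (Sum.inr ∘ u)) ∈ p)

end Defs

open Pool.Agent.Lib.helper17.WO

section Ext1
variable {M M' : Type*}

def ext1 (A : Str M) (y z : Prop) (e : M → Prop) : Str (Unit ⊕ M)
  | .Y (.inl _) => y
  | .Y (.inr u) => A (.Y u)
  | .Z (.inl _) => z
  | .Z (.inr u) => A (.Z u)
  | .E (.inl _) (.inr u) => e u
  | .E (.inr u) (.inr v) => A (.E u v)
  | .E _ (.inl _) => False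
  | .N (.inr a) (.inr b) (.inr c) => A (.N a b c)
  | .N _ _ _ => False

lemma ext1_inr (A : Str M) (y z : Prop) (e : M → Prop) : comap (ext1 A y z e) Sum.inr = A := by
  funext t; cases t <;> rfl

lemma ext1_comap (A : Str M) (y z : Prop) (e : M → Prop) (f : M' → M) :
    comap (ext1 A y z e) (Sum.map id f) = ext1 (comap A f) y z (fun u => e (f u)) := by
  funext t
  rcases t with (_ | _) | (_ | _) | ⟨_ | _, _ | _⟩ | ⟨_ | _, _ | _, _ | _⟩ <;> rfl

lemma ext1_valid {A : Str M} (hA : Valid A) {y z : Prop} {e : M → Prop}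
    (h : ∀ u, e u → ¬ (y ∧ A (.Z u)) ∧ ¬ (z ∧ A (.Y u))) : Valid (ext1 A y z e) := by
  refine ⟨?_, ?_, ?_⟩
  · rintro (_ | _) (_ | _) he
    · exact he.elim
    · exact h _ he
    · exact he.elim
    · exact hA.c1 _ _ he
  · rintro (_ | _) (_ | _) (_ | _) hn <;> first | exact hn.elim | exact hA.c2 _ _ _ hn
  · rintro (_ | _) (_ | _) (_ | _) (_ | _) hn e1 e2 e3 <;>
      first | exact hn.elim | exact e2.elim | exact hA.c3 _ _ _ _ hn e1 e2 e3

def Gp (A : Str M) : Str (Unit ⊕ M) := ext1 A False True (fun u => ¬ A (.Y u))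
def Gq (A : Str M) : Str (Unit ⊕ M) := ext1 A True False (fun u => ¬ A (.Z u))

lemma gp_valid {A : Str M} (hA : Valid A) : Valid (Gp A) := ext1_valid hA fun u h => by simp [h]
lemma gq_valid {A : Str M} (hA : Valid A) : Valid (Gq A) := ext1_valid hA fun u h => by simp [h]
lemma gp_comap (A : Str M) (f : M' → M) : comap (Gp A) (Sum.map id f) = Gp (comap A f) :=
  ext1_comap _ _ _ _ _
lemma gq_comap (A : Str M) (f : M' → M) : comap (Gq A) (Sum.map id f) = Gq (comap A f) :=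
  ext1_comap _ _ _ _ _

def Gr (A : Str M) : Str ((Unit ⊕ Unit) ⊕ M) := comap (Gp (Gp A)) (Equiv.sumAssoc Unit Unit M)

lemma gr_inr (A : Str M) : comap (Gr A) Sum.inr = A := by funext t; cases t <;> rfl

def G3 (A : Str M) (c : Prop) : Str (Unit ⊕ ((Unit ⊕ Unit) ⊕ M)) := fun t =>
  Gq (Gr A) t ∨ (c ∧ t = .N (.inr (.inl (.inl ()))) (.inr (.inl (.inr ()))) (.inl ()))

lemma g3_valid {A : Str M} (hA : Valid A) (c : Prop) : Valid (G3 A c) := by
  have h : Valid (Gq (Gr A)) := gq_valid ((gp_valid (gp_valid hA)).comap _)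
  refine ⟨fun u v => ?_, fun x a y => ?_, fun x a y b => ?_⟩
  · simpa [G3] using h.c1 u v
  · rintro (hn | ⟨-, hn⟩)
    · simpa [G3] using h.c2 x a y hn
    · obtain ⟨rfl, rfl, rfl⟩ := Atom.N.inj hn
      simp [G3, Gq, Gr, Gp, ext1, comap, Atom.map]
  · rintro (hn | ⟨-, hn⟩)
    · simpa [G3] using h.c3 x a y b hn
    · obtain ⟨rfl, rfl, rfl⟩ := Atom.N.inj hn
      rcases b with _ | (_ | _) | _ <;> simp [G3, Gq, Gr, Gp, ext1, comap, Atom.map]

def sw : ((Unit ⊕ Unit) ⊕ Unit) ⊕ M → Unit ⊕ ((Unit ⊕ Unit) ⊕ M)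
  | .inl (.inl a) => .inr (.inl a)
  | .inl (.inr a) => .inl a
  | .inr a => .inr (.inr a)

lemma g3_r (A : Str M) (c : Prop) : comap (comap (G3 A c) sw) (Sum.map Sum.inl id) = Gr A := by
  funext t
  rcases t with (_ | _) | (_ | _) | ⟨_ | _, _ | _⟩ | ⟨_ | _, _ | _, _ | _⟩ <;>
    simp [G3, Gq, ext1, comap, Atom.map, sw]

lemma g3_q (A : Str M) (c : Prop) : comap (comap (G3 A c) sw) (Sum.map Sum.inr id) = Gq A := by
  funext t
  rcases t with (_ | _) | (_ | _) | ⟨_ | _, _ | _⟩ | ⟨_ | _, _ | _, _ | _⟩ <;>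
    simp [G3, Gq, Gr, Gp, ext1, comap, Atom.map, sw]

end Ext1

variable {U : Type u} [L.Structure U] {α β : Type}

def Gen (G : Str (α ⊕ U)) (F : Set U) (x : α → U) : Prop :=
  Emb (str U) (Sum.elim x (Subtype.val : F → U)) (comap G (Sum.map id Subtype.val))

def tp (G : Str (α ⊕ U)) : Set (L.Formula (α ⊕ U)) :=
  {φ | ∃ F : Set U, F.Finite ∧ ∀ x, Gen G F x → φ.Realize (Sum.elim x id)}

lemma Gen.of {G : Str (α ⊕ U)} {F : Set U} {x : α → U} (h : Gen G F x) {γ : Type*} {w : γ → U}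
    (hw : Function.Injective w) (hF : ∀ c, w c ∈ F) :
    Emb (str U) (Sum.elim x w) (comap G (Sum.map id w)) := by
  have := h.comp (g := Sum.map id fun c => (⟨w c, hF c⟩ : F))
    (Function.injective_id.sumMap fun a b e => hw (congrArg Subtype.val e))
  rw [comap_comap] at this
  convert this using 2 <;> funext a <;> rcases a with a | a <;> rfl

lemma Gen.mono {G : Str (α ⊕ U)} {F F' : Set U} {x : α → U} (h : Gen G F' x) (hF : F ⊆ F') :
    Gen G F x := h.of Subtype.val_injective fun c => hF c.2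

lemma Gen.sub {α' : Type} {G : Str (α ⊕ U)} {H : Str (α' ⊕ U)} {f : α → α'}
    (hf : Function.Injective f) (e : comap H (Sum.map f id) = G) {F : Set U} {z : α' → U}
    (h : Gen H F z) : Gen G F (z ∘ f) := by
  have := h.comp (g := Sum.map f id) (hf.sumMap Function.injective_id)
  subst e
  unfold Gen
  rw [comap_comap] at this ⊢
  convert this using 2 <;> funext a <;> rcases a with a | a <;> rfl

lemma tp_sub {α' : Type} {G : Str (α ⊕ U)} {H : Str (α' ⊕ U)} {f : α → α'}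
    (hf : Function.Injective f) (e : comap H (Sum.map f id) = G) {φ : L.Formula (α ⊕ U)}
    (h : φ ∈ tp G) : φ.relabel (Sum.map f id) ∈ tp H := by
  obtain ⟨F, hF, h⟩ := h
  refine ⟨F, hF, fun z hz => ?_⟩
  rw [Formula.realize_relabel]
  convert h _ (hz.sub hf e) using 1
  funext a; rcases a with a | a <;> rfl

lemma str_equiv (σ : U ≃[L] U) : comap (str U) σ = str U := by
  funext t
  have h : ∀ {n} (r : Rel n) (x : Fin n → U), comap (str U) σ (mkAtom r x) = str U (mkAtom r x) := by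
    intro n r x
    simp only [comap, mkAtom_map, str_mkAtom]
    exact propext (σ.map_rel (L := L) r x)
  cases t with
  | Y a => exact h .Y ![a]
  | Z a => exact h .Z ![a]
  | E a b => exact h .E ![a, b]
  | N a b c => exact h .N ![a, b, c]

section
variable (hV : Valid (str U)) (hE : ExtFin (str U)) [Finite α] {G : Str (α ⊕ U)}
  (hG : Valid G) (hG' : comap G Sum.inr = str U)

include hE hG hG' in
lemma gen_ex {F : Set U} (hF : F.Finite) : ∃ x, Gen G F x := by
  have := hF.to_subtype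
  exact hE.ext (hG.comap _) ⟨Subtype.val_injective, by rw [← hG', comap_comap, comap_comap]; rfl⟩

include hE hG hG' in
lemma tp_sat {s : Set (L.Formula (α ⊕ U))} (hs : s ⊆ tp G) (hf : s.Finite) :
    ∃ x : α → U, ∀ ψ ∈ s, ψ.Realize (Sum.elim x id) := by
  choose! F h1 h2 using hs
  obtain ⟨x, hx⟩ := gen_ex hE hG hG' (hf.biUnion fun ψ hψ => h1 hψ)
  exact ⟨x, fun ψ hψ => h2 hψ x (hx.mono (Set.subset_biUnion_of_mem (u := F) hψ))⟩

include hE hG hG' in
lemma tp_cons {φ : L.Formula (α ⊕ U)} (h : Implies (tp G) φ) : φ.not ∉ tp G := by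
  intro h'
  obtain ⟨s, hs, hf, h⟩ := h
  obtain ⟨x, hx⟩ := tp_sat hE hG hG' (Set.insert_subset h' hs) (hf.insert _)
  have := hx _ (Set.mem_insert _ _)
  rw [Formula.realize_not] at this
  exact this (h x fun ψ hψ => hx ψ (Set.mem_insert_of_mem _ hψ))

include hV hE in
lemma gen_same (φ : L.Formula (α ⊕ U)) : ∃ F : Set U, F.Finite ∧ ∀ (S : Str (α ⊕ F)) (x x' : α → U),
    Emb (str U) (Sum.elim x Subtype.val) S → Emb (str U) (Sum.elim x' Subtype.val) S →
      (φ.Realize (Sum.elim x id) ↔ φ.Realize (Sum.elim x' id)) := by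
  obtain ⟨s, hs, h⟩ := supp hV hE φ
  have hf : (Sum.inr ⁻¹' s).Finite := hs.preimage Sum.inr_injective.injOn
  have := hf.to_subtype
  refine ⟨_, hf, fun S x x' h1 h2 => h _ (Set.finite_range _)
    (pi_of_emb (fun a => (Sum.elim x Subtype.val a, Sum.elim x' Subtype.val a)) subset_rfl h1 h2)
    _ _ ?_⟩
  rintro (b | b) hb
  · exact ⟨.inl b, rfl⟩
  · exact ⟨.inr ⟨b, hb⟩, rfl⟩

include hV hE hG hG' in
lemma tp_type : IsType (tp G) := by
  refine ⟨fun h => tp_cons hE hG hG' h ⟨∅, Set.finite_empty, fun x _ => by simp⟩, fun φ => ?_⟩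
  obtain ⟨F, hF, h⟩ := gen_same hV hE φ
  by_cases k : ∃ x, Gen G F x ∧ φ.Realize (Sum.elim x id)
  · obtain ⟨x, hx, k⟩ := k
    exact Or.inl ⟨F, hF, fun x' hx' => (h _ x x' hx hx').1 k⟩
  · exact Or.inr ⟨F, hF, fun x hx => by rw [Formula.realize_not]; exact fun e => k ⟨x, hx, e⟩⟩

include hV hE hG hG' in
lemma mem_tp {δ : Type*} (φ : L.Formula δ) (f : δ → α ⊕ U) {F : Set U} (hF : F.Finite)
    (hf : ∀ d u, f d = .inr u → u ∈ F) {x : α → U} (hx : Gen G F x) :
    φ.relabel f ∈ tp G ↔ φ.Realize (Sum.elim x id ∘ f) := by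
  have := hF.to_subtype
  have : ∀ d, ∃ c : α ⊕ F, Sum.map id Subtype.val c = f d := fun d => by
    rcases e : f d with a | a
    · exact ⟨.inl a, rfl⟩
    · exact ⟨.inr ⟨a, hf d a e⟩, rfl⟩
  choose f' hf' using this
  have k : ∀ x' : α → U, Gen G F x' →
      (φ.Realize (Sum.elim x id ∘ f) ↔ (φ.relabel f).Realize (Sum.elim x' id)) := fun x' hx' => by
    have := qe_emb hV hE hx hx' (φ.relabel f')
    have e : ∀ y : α → U, Sum.elim y Subtype.val ∘ f' = Sum.elim y id ∘ f := fun y => by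
      funext d; simp only [Function.comp, ← hf']; rcases f' d with a | a <;> rfl
    rw [Formula.realize_relabel, Formula.realize_relabel, e, e] at this
    rw [Formula.realize_relabel, this]
  refine ⟨fun ⟨F', hF', h⟩ => ?_, fun h => ⟨F, hF, fun x' hx' => (k x' hx').1 h⟩⟩
  obtain ⟨x', hx'⟩ := gen_ex hE hG hG' (hF.union hF')
  exact (k x' (hx'.mono Set.subset_union_left)).2 (h x' (hx'.mono Set.subset_union_right))

include hV hE hG hG' in
lemma tp_inv (hσ : ∀ σ : U ≃[L] U, comap G (Sum.map id σ) = G) : Invariant (tp G) := by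
  have key : ∀ (σ : U ≃[L] U) φ, φ ∈ tp G → φ.relabel (Sum.map id σ) ∈ tp G := by
    rintro σ φ ⟨F, hF, h⟩
    refine ⟨σ '' F, hF.image _, fun x hx => ?_⟩
    have h1 := hx.of (w := fun c : F => σ c.1) (σ.injective.comp Subtype.val_injective)
      (fun c => ⟨c.1, c.2, rfl⟩)
    have e1 : (Sum.elim x fun c : F => σ c.1) = σ ∘ Sum.elim (σ.symm ∘ x) Subtype.val := by
      funext a; rcases a with a | a <;> simp
    have h2 : Gen G F (σ.symm ∘ x) := by
      rw [e1] at h1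
      refine ⟨h1.1.of_comp, ?_⟩
      have h3 := h1.2
      rw [← comap_comap, str_equiv] at h3
      rw [h3]
      conv_rhs => rw [← hσ σ, comap_comap]
      congr 1; funext a; rcases a with a | a <;> rfl
    have := (StrongHomClass.realize_formula σ φ).2 (h _ h2)
    rw [Formula.realize_relabel]
    convert this using 1
    funext a; rcases a with a | a <;> simp
  refine fun σ φ => ⟨key σ φ, fun h => ?_⟩
  refine ((tp_type hV hE hG hG').2 φ).resolve_right fun h' => ?_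
  obtain ⟨x, hx⟩ := tp_sat hE hG hG' (Set.insert_subset h (Set.singleton_subset_iff.2 (key σ _ h')))
    (Set.toFinite _)
  have a := hx _ (Set.mem_insert _ _)
  have b := hx _ (Set.mem_insert_of_mem _ rfl)
  rw [Formula.realize_relabel] at a b
  exact Formula.realize_not.1 b a

end

noncomputable def genF [Finite α] (G : Str (α ⊕ U)) (F : Set U) [Finite F] : L.Formula (α ⊕ U) :=
  (diag (comap G (Sum.map id (Subtype.val : F → U)))).relabel (Sum.map id Subtype.val)

lemma r_genF [Finite α] (G : Str (α ⊕ U)) (F : Set U) [Finite F] (x : α → U) :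
    (genF G F).Realize (Sum.elim x id) ↔ Gen G F x := by
  rw [genF, Formula.realize_relabel, r_diag, Gen]
  apply iff_of_eq; congr 1; funext a; rcases a with a | a <;> rfl

variable (hV : Valid (str U)) (hE : ExtFin (str U))
include hV hE

lemma tensor : IsTensor (tp (Gp (str U))) (tp (Gp (str U))) (tp (Gr (str U))) := by
  intro n u
  have v1 := gp_valid hV
  have v2 : comap (Gp (str U)) Sum.inr = str U := ext1_inr _ _ _ _
  have hu : ∀ {γ : Type} (d : γ ⊕ Fin n) v, Sum.map id u d = .inr v → v ∈ Set.range u := by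
    rintro γ (d | d) v e
    · cases e
    · exact ⟨d, Sum.inr.inj e⟩
  have eu : ∀ {γ : Type} (x : γ → U), Sum.elim x id ∘ Sum.map id u = Sum.elim x u := fun x => by
    funext a; rcases a with a | a <;> rfl
  obtain ⟨b0, hb0⟩ := gen_ex hE v1 v2 (Set.finite_range u)
  refine ⟨⟨b0, fun ψ hψ => by
    rwa [mem_tp hV hE v1 v2 ψ _ (Set.finite_range u) hu hb0, eu] at hψ⟩, fun b hb φ => ?_⟩
  have hb' : Gen (Gp (str U)) (Set.range u) b := by
    let ψ : L.Formula (Unit ⊕ Fin n) := (diag (comap (Gp (str U))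
      (Sum.map id (Subtype.val : Set.range u → U)))).relabel (Sum.map id (Set.rangeSplitting u))
    have k : ∀ x : Unit → U, ψ.Realize (Sum.elim x u) ↔ Gen (Gp (str U)) (Set.range u) x := by
      intro x
      rw [Formula.realize_relabel, r_diag, Gen]
      apply iff_of_eq; congr 1; funext a; rcases a with a | a
      · rfl
      · exact Set.apply_rangeSplitting u a
    refine (k b).1 (hb ψ ?_)
    rw [mem_tp hV hE v1 v2 ψ _ (Set.finite_range u) hu hb0, eu]
    exact (k b0).2 hb0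
  have hF : (Set.range (Sum.elim b u)).Finite := Set.finite_range _
  obtain ⟨x, hx⟩ := gen_ex hE v1 v2 hF
  have hr : Gen (Gr (str U)) (Set.range u) (Sum.elim x b) := by
    have h1 := hx.of hb'.1 (by
      rintro (c | ⟨_, c, rfl⟩)
      · exact ⟨.inl c, rfl⟩
      · exact ⟨.inr c, rfl⟩)
    rw [gp_comap, hb'.2, ← gp_comap] at h1
    have h2 := h1.comp (Equiv.sumAssoc Unit Unit _).injective
    unfold Gen Gr
    rw [comap_comap] at h2 ⊢
    convert h2 using 2 <;> funext a <;> rcases a with (a | a) | a <;> rfl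
  rw [mem_tp hV hE (G := Gr (str U)) ((gp_valid v1).comap _) (gr_inr _) φ _ (Set.finite_range u) hu hr,
    mem_tp hV hE v1 v2 φ _ hF ?_ hx]
  · apply iff_of_eq; congr 1; funext a; rcases a with (a | a) | a <;> rfl
  · rintro ((d | d) | d) v e
    · cases e
    · exact ⟨.inl d, Sum.inr.inj e⟩
    · exact ⟨.inr d, Sum.inr.inj e⟩

omit hE in
lemma mixed {F F' : Set U} (hF : F ⊆ F')
    (hb : ∀ a ∈ F, ∃ b ∈ F', str U (.E b a) ∧ ¬ str U (.Y b) ∧ ¬ str U (.Z b))
    {x y : Unit → U} (hx : Gen (Gp (str U)) F' x) (hy : Gen (Gq (str U)) F' y) :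
    Emb (str U) (Sum.elim y (Sum.elim x (Subtype.val : F → U)))
      (comap (Gq (Gp (str U))) (Sum.map id (Sum.map id Subtype.val))) := by
  have hx1 := hx.mono hF
  have hy1 := hy.mono hF
  have xZ : str U (.Z (x ())) := (congrFun hx.2 (.Z (.inl ()))).mpr trivial
  have yZ : ¬ str U (.Z (y ())) := fun h => (congrFun hy.2 (.Z (.inl ()))).mp h
  have yY : str U (.Y (y ())) := (congrFun hy.2 (.Y (.inl ()))).mpr trivial
  have xx : ¬ str U (.E (x ()) (x ())) := fun h => (congrFun hx.2 (.E (.inl ()) (.inl ()))).mp h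
  have ux : ∀ u : F, ¬ str U (.E u (x ())) := fun u h => (congrFun hx1.2 (.E (.inr u) (.inl ()))).mp h
  have xy : ¬ str U (.E (x ()) (y ())) := fun h => (hV.c1 _ _ h).2 ⟨xZ, yY⟩
  have yx : ¬ str U (.E (y ()) (x ())) := fun h => (hV.c1 _ _ h).1 ⟨yY, xZ⟩
  have n1 : ∀ a c, ¬ str U (.N (y ()) a c) := fun a c h => (hV.c2 _ _ _ h).2.1 yY
  have n2 : ∀ a c, ¬ str U (.N a (y ()) c) := fun a c h => (hV.c2 _ _ _ h).2.2 yY
  have n3 : ∀ c, ¬ str U (.N (x ()) (x ()) c) := fun c h => xx (hV.c2 _ _ _ h).1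
  have n4 : ∀ (u : F) c, ¬ str U (.N u (x ()) c) := fun u c h => ux u (hV.c2 _ _ _ h).1
  have n5 : ∀ (u : F), ¬ str U (.N (x ()) u (y ())) := fun u h => by
    obtain ⟨b, hb, e, k1, k2⟩ := hb u.1 u.2
    exact hV.c3 _ _ _ b h e ((congrFun hx.2 (.E (.inl ()) (.inr ⟨b, hb⟩))).mpr k1)
      ((congrFun hy.2 (.E (.inl ()) (.inr ⟨b, hb⟩))).mpr k2)
  constructor
  · rintro (a | a | a) (b | b | b) e
    · rfl
    · exact (yZ (by have e' : y () = x () := e; rw [e']; exact xZ)).elim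
    · cases hy1.1 (a₁ := .inl a) (a₂ := .inr b) e
    · exact (yZ (by have e' : x () = y () := e; rw [← e']; exact xZ)).elim
    · rfl
    · cases hx1.1 (a₁ := .inl a) (a₂ := .inr b) e
    · cases hy1.1 (a₁ := .inr a) (a₂ := .inl b) e
    · cases hx1.1 (a₁ := .inr a) (a₂ := .inl b) e
    · exact congrArg _ (congrArg _ (Subtype.ext e))
  · funext t
    by_cases h1 : t.All (· ∈ Set.range Sum.inr)
    · obtain ⟨s, rfl⟩ := Atom.lift _ h1
      refine Eq.trans ?_ ((congrFun hx1.2 s).trans ?_) <;> cases s <;> rfl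
    by_cases h2 : t.All (· ∈ Set.range (Sum.map id Sum.inr))
    · obtain ⟨s, rfl⟩ := Atom.lift _ h2
      refine Eq.trans ?_ ((congrFun hy1.2 s).trans ?_) <;>
        rcases s with (_ | _) | (_ | _) | ⟨_ | _, _ | _⟩ | ⟨_ | _, _ | _, _ | _⟩ <;> rfl
    rcases t with (_ | _ | _) | (_ | _ | _) | ⟨_ | _ | _, _ | _ | _⟩ |
      ⟨_ | _ | _, _ | _ | _, _ | _ | _⟩ <;>
      simp [Atom.All] at h1 h2 <;>
      simp [comap, Atom.map, Gq, Gp, ext1, xy, yx, n1, n2, n3, n4, n5]

lemma orth : WOrth (tp (Gp (str U))) (tp (Gq (str U))) := by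
  intro φ
  obtain ⟨F, hF, h⟩ := gen_same hV hE φ
  have hb : ∀ a : U, ∃ b, str U (.E b a) ∧ ¬ str U (.Y b) ∧ ¬ str U (.Z b) := fun a => by
    obtain ⟨b, hb⟩ := gen_ex hE (G := ext1 (str U) False False fun _ => True)
      (ext1_valid hV (by simp)) (ext1_inr _ _ _ _) (Set.finite_singleton a)
    exact ⟨b (), (congrFun hb.2 (.E (.inl ()) (.inr ⟨a, rfl⟩))).mpr trivial,
      fun h => (congrFun hb.2 (.Y (.inl ()))).mp h, fun h => (congrFun hb.2 (.Z (.inl ()))).mp h⟩
  choose b hb using hb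
  have hF' : (F ∪ b '' F).Finite := hF.union (hF.image _)
  have := hF'.to_subtype
  let s : Set (L.Formula ((Unit ⊕ Unit) ⊕ U)) :=
    {(genF (Gp (str U)) (F ∪ b '' F)).relabel (Sum.map Sum.inl id),
      (genF (Gq (str U)) (F ∪ b '' F)).relabel (Sum.map Sum.inr id)}
  have hs : s ⊆ join (tp (Gp (str U))) (tp (Gq (str U))) := by
    rintro _ (rfl | rfl)
    · exact Or.inl ⟨_, ⟨_, hF', fun x hx => (r_genF _ _ _).2 hx⟩, rfl⟩
    · exact Or.inr ⟨_, ⟨_, hF', fun x hx => (r_genF _ _ _).2 hx⟩, rfl⟩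
  let j : (Unit ⊕ Unit) ⊕ F → Unit ⊕ (Unit ⊕ F) :=
    Sum.elim (Sum.elim (Sum.inr ∘ Sum.inl) Sum.inl) (Sum.inr ∘ Sum.inr)
  have k : ∀ z : Unit ⊕ Unit → U, (∀ ψ ∈ s, ψ.Realize (Sum.elim z id)) →
      Emb (str U) (Sum.elim z Subtype.val)
        (comap (comap (Gq (Gp (str U))) (Sum.map id (Sum.map id Subtype.val))) j) := by
    intro z hz
    have h1 := hz _ (Set.mem_insert _ _)
    have h2 := hz _ (Set.mem_insert_of_mem _ rfl)
    rw [Formula.realize_relabel] at h1 h2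
    have h1' : Gen (Gp (str U)) (F ∪ b '' F) (z ∘ Sum.inl) := by
      rw [← r_genF]; convert h1 using 1; funext a; rcases a with a | a <;> rfl
    have h2' : Gen (Gq (str U)) (F ∪ b '' F) (z ∘ Sum.inr) := by
      rw [← r_genF]; convert h2 using 1; funext a; rcases a with a | a <;> rfl
    have := (mixed hV (F := F) (F' := F ∪ b '' F) Set.subset_union_left
      (fun a ha => ⟨b a, Or.inr ⟨a, ha, rfl⟩, hb a⟩) h1' h2').comp (g := j) (by
        rintro ((_ | _) | _) ((_ | _) | _) e <;> simp [j] at e ⊢ <;> exact e)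
    convert this using 1
    funext a; rcases a with (a | a) | a <;> rfl
  by_cases hz : ∃ z, (∀ ψ ∈ s, ψ.Realize (Sum.elim z id)) ∧ φ.Realize (Sum.elim z id)
  · obtain ⟨z, h1, h2⟩ := hz
    exact Or.inl ⟨s, hs, Set.toFinite _, fun z' h' => (h _ z z' (k z h1) (k z' h')).1 h2⟩
  · exact Or.inr ⟨s, hs, Set.toFinite _, fun z h' => by
      rw [Formula.realize_not]; exact fun e => hz ⟨z, h', e⟩⟩

lemma not_orth : ¬ WOrth (tp (Gr (str U))) (tp (Gq (str U))) := by
  intro h
  have v : ∀ c, Valid (comap (G3 (str U) c) sw) := fun c => (g3_valid hV c).comap _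
  have v' : ∀ c, comap (comap (G3 (str U) c) sw) Sum.inr = str U := fun c => by
    funext t; cases t <;> simp [G3, Gq, Gr, Gp, ext1, comap, Atom.map, sw]
  have sub : ∀ c {φ}, Implies (join (tp (Gr (str U))) (tp (Gq (str U)))) φ →
      Implies (tp (comap (G3 (str U) c) sw)) φ := by
    rintro c φ ⟨s, hs, h⟩
    refine ⟨s, hs.trans ?_, h⟩
    rintro _ (⟨ψ, hψ, rfl⟩ | ⟨ψ, hψ, rfl⟩)
    · exact tp_sub Sum.inl_injective (g3_r _ c) hψ
    · exact tp_sub Sum.inr_injective (g3_q _ c) hψ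
  have k : ∀ c z, Gen (comap (G3 (str U) c) sw) ∅ z →
      ((atomF (.N (.inl (.inl (.inl ()))) (.inl (.inl (.inr ()))) (.inl (.inr ())))).Realize
        (Sum.elim z id) ↔ c) := fun c z hz => by
    rw [r_atomF]
    refine (iff_of_eq (congrFun hz.2
      (.N (.inl (.inl (.inl ()))) (.inl (.inl (.inr ()))) (.inl (.inr ()))))).trans ?_
    simp [G3, Gq, ext1, comap, Atom.map, sw]
  rcases h (atomF (.N (.inl (.inl (.inl ()))) (.inl (.inl (.inr ()))) (.inl (.inr ())))) with h | h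
  · exact tp_cons hE (v False) (v' _) (sub _ h) ⟨∅, Set.finite_empty, fun z hz => by
      rw [Formula.realize_not, k _ z hz]; exact id⟩
  · exact tp_cons hE (v True) (v' _) (sub _ h) ⟨∅, Set.finite_empty, fun z hz => by
      rw [Formula.realize_not, Formula.realize_not, k _ z hz]; simp⟩

omit hV hE in
theorem result : ∃ (L : FirstOrder.Language.{0, 0}) (T : L.Theory), T.IsComplete ∧
    ∀ (U : Type u) [L.Structure U], U ⊨ T →
      ∃ (p q : Set (L.Formula (Unit ⊕ U))) (r : Set (L.Formula ((Unit ⊕ Unit) ⊕ U))),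
        IsType p ∧ IsType q ∧ IsType r ∧ Invariant p ∧ Invariant q ∧ IsTensor p p r ∧
          WOrth p q ∧ ¬ WOrth r q := by
  obtain ⟨T, hT, h⟩ := ex_theory.{u}
  refine ⟨L, T, hT, fun U _ hU => ?_⟩
  obtain ⟨hV, hE⟩ := h U hU
  have a : comap (Gp (str U)) Sum.inr = str U := ext1_inr _ _ _ _
  have b : comap (Gq (str U)) Sum.inr = str U := ext1_inr _ _ _ _
  exact ⟨_, _, _, tp_type hV hE (gp_valid hV) a, tp_type hV hE (gq_valid hV) b,
    tp_type hV hE ((gp_valid (gp_valid hV)).comap _) (gr_inr _),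
    tp_inv hV hE (gp_valid hV) a (fun σ => by rw [gp_comap, str_equiv]),
    tp_inv hV hE (gq_valid hV) b (fun σ => by rw [gq_comap, str_equiv]),
    tensor hV hE, orth hV hE, not_orth hV hE⟩

end Pool.Agent.Results.MP_f8e4dc_lc.Q1
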